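import Pool.Agent.helper69.DH.SpecR2

set_option autoImplicit false

open Filter Topology MeasureTheory
open scoped commutatorElement

namespace Pool.Agent.helper90.DH

open Pool.Agent.helper64.D2

theorem rCON : rCON_stmt := by
  intro K K0 a hK hK0
  have hK' : 0 < K := by linarith
  have hK0' : 0 < K0 := by linarith
  have t0 := tendsto_pow_const_div_const_pow_of_one_lt 0 (r := (2 : ℝ)) (by norm_num)
  have t1 := tendsto_pow_const_div_const_pow_of_one_lt 1 (r := (2 : ℝ)) (by norm_num)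
  have ta := tendsto_pow_const_div_const_pow_of_one_lt a (r := (2 : ℝ)) (by norm_num)
  have t3 := tendsto_pow_const_div_const_pow_of_one_lt (3 * a) (r := (2 : ℝ)) (by norm_num)
  have E1 : ∀ᶠ w : ℕ in atTop, (13 * K * 39 * 2 ^ 14 * 2 ^ (3 * a)) * ((w : ℝ) ^ (3 * a) / 2 ^ w) ≤ 1 / 2 ^ 105 := by
    have h := t3.const_mul (13 * K * 39 * 2 ^ 14 * 2 ^ (3 * a))
    rw [mul_zero] at h
    exact (h.eventually_lt_const (by positivity : (0 : ℝ) < 1 / 2 ^ 105)).mono fun w hw => hw.le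
  have E2 : ∀ᶠ w : ℕ in atTop, 2 ^ a * ((w : ℝ) ^ a / 2 ^ w) ≤ 1 := by
    have h := ta.const_mul (2 ^ a : ℝ)
    rw [mul_zero] at h
    exact (h.eventually_lt_const (by norm_num : (0 : ℝ) < 1)).mono fun w hw => hw.le
  have E3 : ∀ᶠ w : ℕ in atTop, (13 * K * K0 ^ 2) * ((w : ℝ) ^ 0 / 2 ^ w + (w : ℝ) ^ 1 / 2 ^ w) ≤ 1 / 2 ^ 105 := by
    have h := (t0.add t1).const_mul (13 * K * K0 ^ 2)
    rw [add_zero, mul_zero] at h
    exact (h.eventually_lt_const (by positivity : (0 : ℝ) < 1 / 2 ^ 105)).mono fun w hw => hw.le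
  have E4 : ∀ᶠ w : ℕ in atTop, K0 * ((w : ℝ) ^ 0 / 2 ^ w) ≤ 1 / 2 := by
    have h := t0.const_mul K0
    rw [mul_zero] at h
    exact (h.eventually_lt_const (by norm_num : (0 : ℝ) < 1 / 2)).mono fun w hw => hw.le
  obtain ⟨w1, hw1⟩ := eventually_atTop.1 ((E1.and E2).and ((E3.and E4).and (eventually_ge_atTop 30)))
  refine ⟨w1, fun w0 hw0 => ?_⟩
  obtain ⟨⟨e1, e2⟩, ⟨e3, e4⟩, e5⟩ := hw1 w0 hw0
  have hw00 : w0 ≠ 0 := by omega
  have hp : (0 : ℝ) < 2 ^ w0 := by positivity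
  -- `2 ^ LL w0 ≤ 2 * w0`
  have hL : (2 : ℝ) ^ (LL w0) ≤ 2 * w0 := by
    have h1 : 2 ^ (Nat.log 2 w0) ≤ w0 := Nat.pow_log_le_self 2 hw00
    have h2 : (2 : ℝ) ^ (Nat.log 2 w0) ≤ w0 := by exact_mod_cast h1
    have h3 : LL w0 = Nat.log 2 w0 + 1 := rfl
    rw [h3, pow_succ]
    linarith
  have hL0 : (0 : ℝ) ≤ 2 ^ (LL w0) := by positivity
  have hLa : ∀ b : ℕ, (2 : ℝ) ^ (b * LL w0) ≤ 2 ^ b * (w0 : ℝ) ^ b := by
    intro b
    rw [mul_comm b, pow_mul, ← mul_pow]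
    exact pow_le_pow_left₀ hL0 hL b
  have h4 : K0 / 2 ^ w0 ≤ 1 / 2 := by
    rw [pow_zero] at e4
    rw [div_eq_mul_one_div]
    exact e4
  refine ⟨?_, e5, h4, ?_⟩
  · have h1 : (2 : ℝ) ^ (a * LL w0) ≤ 2 ^ w0 := by
      refine (hLa a).trans ?_
      have h2 : 2 ^ a * ((w0 : ℝ) ^ a / 2 ^ w0) = (2 ^ a * (w0 : ℝ) ^ a) / 2 ^ w0 := by ring
      rw [h2, div_le_one hp] at e2
      exact e2
    exact (pow_le_pow_iff_right₀ (by norm_num : (1 : ℝ) < 2)).1 h1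
  · -- the two parts
    have hA : 13 * (K * (K0 / 2 ^ w0) ^ 2 * (1 + Real.log (1 / (K0 / 2 ^ w0)))) ≤ 1 / 2 ^ 105 := by
      have h1 : Real.log (1 / (K0 / 2 ^ w0)) ≤ w0 := by
        have h2 : (1 : ℝ) / (K0 / 2 ^ w0) = 2 ^ w0 / K0 := by
          rw [one_div_div]
        rw [h2, Real.log_div (by positivity) (by positivity), Real.log_pow]
        have h3 : 0 ≤ Real.log K0 := Real.log_nonneg hK0
        have h5 : Real.log 2 ≤ 1 := by
          have := Real.log_le_sub_one_of_pos (show (0 : ℝ) < 2 by norm_num)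
          linarith
        have h6 : (w0 : ℝ) * Real.log 2 ≤ w0 * 1 := mul_le_mul_of_nonneg_left h5 (Nat.cast_nonneg _)
        linarith
      have h2 : (K0 / 2 ^ w0) ^ 2 ≤ K0 ^ 2 / 2 ^ w0 := by
        rw [div_pow]
        apply div_le_div_of_nonneg_left (by positivity) hp
        have : (1 : ℝ) ≤ 2 ^ w0 := one_le_pow₀ (by norm_num)
        nlinarith
      have h3 : K * (K0 / 2 ^ w0) ^ 2 * (1 + Real.log (1 / (K0 / 2 ^ w0))) ≤ K * (K0 ^ 2 / 2 ^ w0) * (1 + w0) := by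
        have h5 : K * (K0 / 2 ^ w0) ^ 2 * (1 + Real.log (1 / (K0 / 2 ^ w0))) ≤ K * (K0 / 2 ^ w0) ^ 2 * (1 + w0) :=
          mul_le_mul_of_nonneg_left (by linarith) (by positivity)
        refine h5.trans ?_
        exact mul_le_mul_of_nonneg_right (mul_le_mul_of_nonneg_left h2 hK'.le) (by positivity)
      refine le_trans ?_ e3
      have h5 : (13 * K * K0 ^ 2) * ((w0 : ℝ) ^ 0 / 2 ^ w0 + (w0 : ℝ) ^ 1 / 2 ^ w0) = 13 * (K * (K0 ^ 2 / 2 ^ w0) * (1 + w0)) := by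
        rw [pow_zero, pow_one]
        ring
      rw [h5]
      linarith
    have hB : 13 * (K * (39 * (2 ^ 10 * (2 ^ (3 * a * LL w0) / 2 ^ (2 * w0)) * 2 ^ (w0 + 4)))) ≤ 1 / 2 ^ 105 := by
      refine le_trans ?_ e1
      have h1 : 13 * (K * (39 * (2 ^ 10 * (2 ^ (3 * a * LL w0) / 2 ^ (2 * w0)) * 2 ^ (w0 + 4)))) = (13 * K * 39 * 2 ^ 14) * ((2 : ℝ) ^ (3 * a * LL w0) / 2 ^ w0) := by
        have h2 : (2 : ℝ) ^ (2 * w0) = 2 ^ w0 * 2 ^ w0 := by rw [two_mul, pow_add]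
        have h3 : (2 : ℝ) ^ (w0 + 4) = 2 ^ w0 * 2 ^ 4 := pow_add _ _ _
        rw [h2, h3]
        field_simp
      rw [h1]
      have h2 : (13 * K * 39 * 2 ^ 14 * 2 ^ (3 * a)) * ((w0 : ℝ) ^ (3 * a) / 2 ^ w0) = (13 * K * 39 * 2 ^ 14) * ((2 ^ (3 * a) * (w0 : ℝ) ^ (3 * a)) / 2 ^ w0) := by ring
      rw [h2]
      exact mul_le_mul_of_nonneg_left (div_le_div_of_nonneg_right (hLa (3 * a)) hp.le) (by positivity)
    have h5 : (1 : ℝ) / 2 ^ 104 = 1 / 2 ^ 105 + 1 / 2 ^ 105 := by norm_num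
    rw [h5]
    linarith

end Pool.Agent.helper90.DH
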